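import Mathlib
import Pool.Agent.Lib.MP_354547_an.OwnFinal

/-!
# MP_354547_an: the free boundary is `C¹` near the origin

Let `D` be an open subset of the plane with `0 ∈ ∂D` which is a Lipschitz domain near `0`, and let
`u` be of class `C^{1,1}_loc` in the ball `B` of radius `2` with `Δ u = x₁ χ_D` in `B` and `u = 0`
in `B` outside the closure of `D`. Then the boundary of `D` is `C¹` near `0`: after a rotation it is
the graph of a `C¹` function in a ball around `0`, and `D` is the region above the graph.
-/

open Metric

namespace Pool.Agent.Results.MP_354547_an.FreeBoundaryC1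

open Pool.Agent.Lib.MP_354547_an.Own

theorem result (D : Set Plane) (hD : IsOpen D) (h0 : (0 : Plane) ∈ frontier D)
    (hlip : LipschitzNear D 0) (u : Plane → ℝ) (hu : IsC11 (ball 0 2) u)
    (heq : SolvesAE D (ball 0 2) u ∨ SolvesWeakly D (ball 0 2) u)
    (hzero : ∀ x ∈ ball (0 : Plane) 2, x ∉ closure D → u x = 0) :
    BoundaryC1Near D 0 :=
  own_final D hD h0 hlip u hu heq hzero

end Pool.Agent.Results.MP_354547_an.FreeBoundaryC1
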